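import Pool.Agent.Helper74_RL.Stmts

/-!
# LEN: general facts on lengths (helper65, squad RLB, MP_62da59_gt)
-/

noncomputable section

open scoped ContDiff Topology ENNReal RealInnerProductSpace BoundedContinuousFunction
set_option maxSynthPendingDepth 3
open Set Metric

namespace Pool.Agent.RLim.H65

open Pool.Agent.RF

theorem isLen_trans {M : Type} {A : Set (Chart 4 M)} {x y : M} {L : ℝ} (h : IsLen A x y L) :
    ∀ {z : M} {L' : ℝ}, IsLen A y z L' → IsLen A x z (L + L') := by
  induction h with
  | nil x =>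
    intro z L' h'
    simpa using h'
  | cons hC hs _ ih =>
    intro z L'' h'
    have := IsLen.cons hC hs (ih h')
    rw [add_assoc]
    exact this

theorem isSeg_symm {M : Type} {C : Chart 4 M} {x y : M} {L : ℝ} (h : IsSeg C x y L) :
    IsSeg C y x L := by
  obtain ⟨c, hc, hU, h0, h1, rfl⟩ := h
  have hr : ContDiff ℝ 1 (fun t : ℝ => 1 - t) := contDiff_const.sub contDiff_id
  refine ⟨fun t => c (1 - t), hc.comp hr, fun t ht => hU _ ⟨by linarith [ht.2], by linarith [ht.1]⟩,
    by simpa using h1, by simpa using h0, ?_⟩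
  have hd : ∀ t, deriv (fun t => c (1 - t)) t = -deriv c (1 - t) := by
    intro t
    have h2 : HasDerivAt c (deriv c (1 - t)) (1 - t) :=
      (hc.differentiable one_ne_zero (1 - t)).hasDerivAt
    have h3 : HasDerivAt (fun t : ℝ => 1 - t) (-1) t := by
      simpa using (hasDerivAt_id t).const_sub 1
    have h4 := HasDerivAt.scomp t h2 h3
    simpa [Function.comp_def] using h4.deriv
  have hq : ∀ (x v : Fin 4 → ℝ), C.quad x (-v) = C.quad x v := by
    intro x v
    simp [Chart.quad]
  have key := intervalIntegral.integral_comp_sub_left (a := 0) (b := 1)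
    (fun t => √(C.quad (c t) (deriv c t))) (1:ℝ)
  simp only [sub_self, sub_zero] at key
  rw [← key]
  refine intervalIntegral.integral_congr fun t _ => ?_
  simp only [hd, hq]

theorem isLen_single {M : Type} {A : Set (Chart 4 M)} {C : Chart 4 M} {x y : M} {L : ℝ}
    (hC : C ∈ A) (h : IsSeg C x y L) : IsLen A x y L := by
  have := IsLen.cons hC h (IsLen.nil y)
  simpa using this

theorem isLen_symm {M : Type} {A : Set (Chart 4 M)} {x y : M} {L : ℝ} (h : IsLen A x y L) :
    IsLen A y x L := by
  induction h with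
  | nil x => exact IsLen.nil x
  | cons hC hs _ ih =>
    rw [add_comm]
    exact isLen_trans ih (isLen_single hC (isSeg_symm hs))

theorem isSeg_nonneg {M : Type} {C : Chart 4 M} {x y : M} {L : ℝ} (h : IsSeg C x y L) :
    0 ≤ L := by
  obtain ⟨c, hc, hU, h0, h1, rfl⟩ := h
  exact intervalIntegral.integral_nonneg (by norm_num) fun t _ => Real.sqrt_nonneg _

theorem isLen_nonneg {M : Type} {A : Set (Chart 4 M)} {x y : M} {L : ℝ} (h : IsLen A x y L) :
    0 ≤ L := by
  induction h with
  | nil x => exact le_refl _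
  | cons hC hs _ ih =>
    have := isSeg_nonneg hs
    linarith

/-- LEN -/
theorem len : LenStmt := by
  intro M A
  refine ⟨fun x y z L L' h h' => isLen_trans h h', fun x y L h => isLen_symm h,
    fun x y L h => isLen_nonneg h, fun U ψ G hC x y L h => isLen_single hC (isSeg_mkC.2 h), ?_⟩
  intro hex
  have hb : ∀ x y, BddBelow {L | IsLen A x y L} := fun x y => ⟨0, fun L h => isLen_nonneg h⟩
  have hn : ∀ x y, {L | IsLen A x y L}.Nonempty := hex
  refine ⟨fun x y => isGLB_csInf (hn x y) (hb x y), ?_, ?_, ?_⟩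
  · intro x
    apply le_antisymm
    · exact csInf_le (hb x x) (IsLen.nil x)
    · exact le_csInf (hn x x) fun L h => isLen_nonneg h
  · intro x y
    congr 1
    ext L
    exact ⟨isLen_symm, isLen_symm⟩
  · intro x y z
    have h1 : ∀ L ∈ {L | IsLen A x y L}, ∀ L' ∈ {L | IsLen A y z L},
        sInf {L | IsLen A x z L} ≤ L + L' := fun L hL L' hL' =>
      csInf_le (hb x z) (isLen_trans hL hL')
    have h2 : ∀ L ∈ {L | IsLen A x y L},
        sInf {L | IsLen A x z L} - L ≤ sInf {L | IsLen A y z L} := fun L hL =>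
      le_csInf (hn y z) fun L' hL' => by linarith [h1 L hL L' hL']
    have h3 : sInf {L | IsLen A x z L} - sInf {L | IsLen A y z L} ≤ sInf {L | IsLen A x y L} :=
      le_csInf (hn x y) fun L hL => by linarith [h2 L hL]
    linarith

end Pool.Agent.RLim.H65
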